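import Pool.Agent.H.MP_77f213_al.C

set_option autoImplicit false

namespace Pool.Agent.Results.MP_77f213_al.Q2

def Geom (G X : Type) [Group G] [MetricSpace X] [MulAction G X] : Prop :=
  Nonempty X ∧ ProperSpace X ∧
  (∀ x y : X, ∃ γ : ℝ → X, γ 0 = x ∧ γ (dist x y) = y ∧
    ∀ s ∈ Set.Icc (0 : ℝ) (dist x y), ∀ t ∈ Set.Icc (0 : ℝ) (dist x y),
      dist (γ s) (γ t) = |s - t|) ∧
  IsIsometricSMul G X ∧ ProperlyDiscontinuousSMul G X ∧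
  (∃ K : Set X, IsCompact K ∧ ∀ x : X, ∃ g : G, g • x ∈ K) ∧
  ∃ δ : ℝ, ∀ x y z w : X,
    min ((dist x w + dist y w - dist x y) / 2) ((dist y w + dist z w - dist y z) / 2) - δ
      ≤ (dist x w + dist z w - dist x z) / 2

def QI (X Y : Type) [MetricSpace X] [MetricSpace Y] (L : ℝ) : Prop :=
  ∃ f : X → Y, ∃ C : ℝ, (∀ x y : X, dist x y / L - C ≤ dist (f x) (f y) ∧
    dist (f x) (f y) ≤ L * dist x y + C) ∧ ∀ z : Y, ∃ x : X, dist (f x) z ≤ C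

open Pool.Agent.H.MP_77f213_al in
theorem result : ∃ (G X₀ X₁ : Type) (_ : Group G) (_ : MetricSpace X₀) (_ : MetricSpace X₁)
    (_ : MulAction G X₀) (_ : MulAction G X₁),
    Group.FG G ∧ Geom G X₀ ∧ Geom G X₁ ∧ (∀ L : ℝ, 1 < L → QI X₀ X₁ L) ∧ ¬ QI X₀ X₁ 1 :=
  ⟨G a0 a1, X a0, X a1, inferInstance, inferInstance, inferInstance, inferInstance, inferInstance,
    fg, ⟨⟨vx a0 []⟩, proper s0, geo, act0.1, act0.2.1, act0.2.2, 0, hyp⟩,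
    ⟨⟨vx a1 []⟩, proper s1, geo, act1.1, act1.2.1, act1.2.2, 0, hyp⟩, yes,
    fun ⟨f, c, h1, h2⟩ => no f c h1 h2⟩

end Pool.Agent.Results.MP_77f213_al.Q2
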